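import Pool.Agent.Run7.h500.RD.Stm2
import Pool.Agent.Run7.h896.RD.SLICE

/-!
Project RD2 (helper500), piece SLICE2: adapted from SLICE of helper896.
-/

set_option autoImplicit false

open MeasureTheory Filter Topology Set

namespace Pool.Agent.Run7.h824.RD2

open Pool.Agent.Run7.h500.RD
open Pool.Agent.Run7.h896.RD

theorem t_SLICE2 : S_SLICE2 := by
  intro f m k C hcont hk hgrowth hV c hc
  have hk3 : 3 ≤ k := by omega
  obtain ⟨K, hK, hKb⟩ := pt_bound c hc
  have hC : 0 ≤ C := by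
    have h := hgrowth 0 0
    have h1 := abs_nonneg (f (0, 0))
    simp only [abs_zero, add_zero, one_pow, mul_one] at h
    linarith
  have hup : up = (univ : Set ℝ) ×ˢ Ioi (0 : ℝ) := by
    ext z
    simp [up]
  have hupm : MeasurableSet up := by
    rw [hup]
    exact MeasurableSet.univ.prod measurableSet_Ioi
  -- the general bound
  have hbd : ∀ b : ℝ, 0 ≤ b → b ≤ 1 → ∀ z ∈ up,
      ‖(f (z.1, b * z.2) : ℂ) * ((pt c z) ^ k)⁻¹‖ ≤ (C * K ^ k) * ((1 + ‖z‖) ^ 3)⁻¹ := by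
    intro b hb0 hb1 z hz
    have hz2 : 0 < z.2 := hz
    have hs1 := sz_one z
    have hspos : 0 < sz z := by linarith
    have hp : 0 < ‖pt c z‖ := norm_pos_iff.2 (pt_ne c hc z hz2)
    have h1 : |f (z.1, b * z.2)| ≤ C * sz z ^ m := by
      refine (hgrowth _ _).trans (mul_le_mul_of_nonneg_left ?_ hC)
      refine pow_le_pow_left₀ (by positivity) ?_ m
      unfold sz
      rw [abs_mul, abs_of_nonneg hb0]
      have := mul_le_of_le_one_left (abs_nonneg z.2) hb1
      linarith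
    have h2 : sz z ^ k ≤ K ^ k * ‖pt c z‖ ^ k := by
      rw [← mul_pow]
      exact pow_le_pow_left₀ hspos.le (hKb z hz2) k
    have h6 : sz z ^ m * sz z ^ 3 ≤ sz z ^ k := by
      rw [← pow_add]
      exact pow_le_pow_right₀ hs1 hk
    have h7 : (1 + ‖z‖) ^ 3 ≤ sz z ^ 3 := pow_le_pow_left₀ (by positivity) (sz_norm z) 3
    rw [norm_mul, norm_inv, norm_pow, Complex.norm_real, Real.norm_eq_abs]
    calc |f (z.1, b * z.2)| * (‖pt c z‖ ^ k)⁻¹ ≤ (C * sz z ^ m) * (‖pt c z‖ ^ k)⁻¹ :=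
          mul_le_mul_of_nonneg_right h1 (by positivity)
      _ ≤ (C * sz z ^ m) * (K ^ k * (sz z ^ k)⁻¹) := by
          refine mul_le_mul_of_nonneg_left ?_ (by positivity)
          rw [← div_eq_mul_inv, inv_eq_one_div, div_le_div_iff₀ (by positivity) (by positivity),
            one_mul]
          exact h2
      _ = (C * K ^ k) * (sz z ^ m * (sz z ^ k)⁻¹) := by ring
      _ ≤ (C * K ^ k) * (sz z ^ 3)⁻¹ := by
          refine mul_le_mul_of_nonneg_left ?_ (by positivity)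
          rw [← div_eq_mul_inv, div_le_iff₀ (by positivity), ← div_eq_inv_mul,
            le_div_iff₀ (by positivity)]
          exact h6
      _ ≤ (C * K ^ k) * ((1 + ‖z‖) ^ 3)⁻¹ := by
          refine mul_le_mul_of_nonneg_left ?_ (by positivity)
          exact inv_anti₀ (by positivity) h7
  have hbi : IntegrableOn (fun z : ℝ × ℝ => (C * K ^ k) * ((1 + ‖z‖) ^ 3)⁻¹) up :=
    (one_add_norm_int.const_mul _).integrableOn
  have hcontpt : Continuous (pt c) := by
    unfold pt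
    fun_prop
  have hmeas : ∀ b : ℝ, AEStronglyMeasurable
      (fun z : ℝ × ℝ => (f (z.1, b * z.2) : ℂ) * ((pt c z) ^ k)⁻¹) (volume.restrict up) := by
    intro b
    refine ContinuousOn.aestronglyMeasurable ?_ hupm
    refine ContinuousOn.mul ?_ ?_
    · have h1 : Continuous fun z : ℝ × ℝ => f (z.1, b * z.2) := hcont.comp (by fun_prop)
      exact (Complex.continuous_ofReal.comp h1).continuousOn
    · exact ContinuousOn.inv₀ (hcontpt.pow k).continuousOn fun z hz => pow_ne_zero _ (pt_ne c hc z hz)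
  have hint : ∀ b : ℝ, 0 ≤ b → b ≤ 1 → IntegrableOn
      (fun z : ℝ × ℝ => (f (z.1, b * z.2) : ℂ) * ((pt c z) ^ k)⁻¹) up := by
    intro b hb0 hb1
    refine Integrable.mono' hbi (hmeas b) ?_
    rw [ae_restrict_iff' hupm]
    exact Eventually.of_forall fun z hz => hbd b hb0 hb1 z hz
  have hI : ∀ b : ℝ, 0 < b → b ≤ 1 → IntegrableOn
      (fun z : ℝ × ℝ => (f z : ℂ) *
        Pool.Agent.Run7.h500.RD.ker k c (Complex.I * ((b⁻¹ : ℝ) : ℂ)) z) up := by
    intro b hb0 hb1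
    have hi1 := hint 1 zero_le_one le_rfl
    have hre : ∀ z : ℝ × ℝ,
        (Complex.I * ((b⁻¹ : ℝ) : ℂ) * (z.2 : ℂ) - (z.1 : ℂ) + c).re = c.re - z.1 := by
      intro z
      simp [Complex.mul_re, Complex.mul_im]
      ring
    have him : ∀ z : ℝ × ℝ,
        (Complex.I * ((b⁻¹ : ℝ) : ℂ) * (z.2 : ℂ) - (z.1 : ℂ) + c).im = b⁻¹ * z.2 + c.im := by
      intro z
      simp [Complex.mul_re, Complex.mul_im]
    have hbinv : 1 ≤ b⁻¹ := (one_le_inv₀ hb0).2 hb1
    have hZ : ∀ z : ℝ × ℝ, 0 < z.2 →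
        ‖pt c z‖ ≤ ‖Complex.I * ((b⁻¹ : ℝ) : ℂ) * (z.2 : ℂ) - (z.1 : ℂ) + c‖ := by
      intro z hz
      rw [Complex.norm_def, Complex.norm_def]
      refine Real.sqrt_le_sqrt ?_
      rw [Complex.normSq_apply, Complex.normSq_apply, pt_re, pt_im, hre, him]
      have h1 : z.2 ≤ b⁻¹ * z.2 := le_mul_of_one_le_left hz.le hbinv
      have h2 : (z.2 + c.im) * (z.2 + c.im) ≤ (b⁻¹ * z.2 + c.im) * (b⁻¹ * z.2 + c.im) :=
        mul_self_le_mul_self (by linarith) (by linarith)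
      linarith
    have hne : ∀ z : ℝ × ℝ, 0 < z.2 →
        Complex.I * ((b⁻¹ : ℝ) : ℂ) * (z.2 : ℂ) - (z.1 : ℂ) + c ≠ 0 := by
      intro z hz
      have h1 := hZ z hz
      have h2 : 0 < ‖pt c z‖ := norm_pos_iff.2 (pt_ne c hc z hz)
      exact norm_pos_iff.1 (lt_of_lt_of_le h2 h1)
    refine Integrable.mono hi1 ?_ ?_
    · refine ContinuousOn.aestronglyMeasurable ?_ hupm
      refine ContinuousOn.mul (Complex.continuous_ofReal.comp hcont).continuousOn ?_
      unfold Pool.Agent.Run7.h500.RD.ker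
      exact ContinuousOn.inv₀ (by fun_prop) fun z hz => pow_ne_zero _ (hne z hz)
    · rw [ae_restrict_iff' hupm]
      refine Eventually.of_forall fun z hz => ?_
      have hz2 : 0 < z.2 := hz
      have h2 : 0 < ‖pt c z‖ := norm_pos_iff.2 (pt_ne c hc z hz2)
      rw [norm_mul, norm_mul, one_mul]
      refine mul_le_mul_of_nonneg_left ?_ (norm_nonneg _)
      unfold Pool.Agent.Run7.h500.RD.ker
      rw [norm_inv, norm_inv, norm_pow, norm_pow]
      exact inv_anti₀ (pow_pos h2 k) (pow_le_pow_left₀ h2.le (hZ z hz2) k)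
  -- the integral vanishes for `0 < b ≤ 1`
  have hzero : ∀ b : ℝ, 0 < b → b ≤ 1 →
      ∫ z in up, (f (z.1, b * z.2) : ℂ) * ((pt c z) ^ k)⁻¹ = 0 := by
    intro b hb0 hb1
    have hw : 0 < (Complex.I * ((b⁻¹ : ℝ) : ℂ)).im := by
      simp
      exact hb0
    have h1 := hV c (Complex.I * ((b⁻¹ : ℝ) : ℂ)) hc hw
    have hi := hI b hb0 hb1
    unfold Vp at h1
    rw [hup] at h1 hi ⊢
    have h2 := setIntegral_prod _ hi
    have hi' := hint b hb0.le hb1
    rw [hup] at hi'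
    have h3 := setIntegral_prod _ hi'
    change ∫ z in univ ×ˢ Ioi (0 : ℝ), _ ∂(volume.prod volume) = 0 at h1
    rw [h2] at h1
    change ∫ z in univ ×ˢ Ioi (0 : ℝ), _ ∂(volume.prod volume) = 0
    rw [h3]
    have h4 : ∀ x : ℝ, ∫ y in Ioi (0 : ℝ), (f (x, b * y) : ℂ) * ((pt c (x, y)) ^ k)⁻¹ =
        b⁻¹ • ∫ y in Ioi (0 : ℝ), (f (x, y) : ℂ) * Pool.Agent.Run7.h500.RD.ker k c (Complex.I * ((b⁻¹ : ℝ) : ℂ)) (x, y) := by
      intro x
      have h5 := integral_comp_mul_left_Ioi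
        (fun y : ℝ => (f (x, y) : ℂ) * Pool.Agent.Run7.h500.RD.ker k c (Complex.I * ((b⁻¹ : ℝ) : ℂ)) (x, y)) 0 hb0
      rw [mul_zero] at h5
      rw [← h5]
      refine setIntegral_congr_fun measurableSet_Ioi fun y _ => ?_
      simp only [Pool.Agent.Run7.h500.RD.ker, pt]
      congr 4
      have hb' : (b : ℂ) ≠ 0 := by exact_mod_cast hb0.ne'
      push_cast
      field_simp
    simp only [h4]
    rw [integral_smul]
    rw [h1, smul_zero]
  -- the limit
  have hlim : Tendsto (fun n : ℕ => ∫ z in up,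
      (f (z.1, (1 / ((n : ℝ) + 1)) * z.2) : ℂ) * ((pt c z) ^ k)⁻¹) atTop
      (𝓝 (∫ z in up, (f (z.1, 0) : ℂ) * ((pt c z) ^ k)⁻¹)) := by
    refine tendsto_integral_of_dominated_convergence
      (fun z : ℝ × ℝ => (C * K ^ k) * ((1 + ‖z‖) ^ 3)⁻¹) (fun n => hmeas _) hbi (fun n => ?_) ?_
    · rw [ae_restrict_iff' hupm]
      refine Eventually.of_forall fun z hz => hbd _ (by positivity) ?_ z hz
      rw [div_le_one (by positivity)]
      have : (0 : ℝ) ≤ n := Nat.cast_nonneg n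
      linarith
    · refine Eventually.of_forall fun z => ?_
      refine Tendsto.mul_const _ ?_
      have h1 : Tendsto (fun n : ℕ => (1 / ((n : ℝ) + 1)) * z.2) atTop (𝓝 0) := by
        have := (tendsto_one_div_add_atTop_nhds_zero_nat (𝕜 := ℝ)).mul_const z.2
        rwa [zero_mul] at this
      have h2 : Tendsto (fun n : ℕ => (z.1, (1 / ((n : ℝ) + 1)) * z.2)) atTop (𝓝 (z.1, (0 : ℝ))) :=
        tendsto_const_nhds.prodMk_nhds h1
      have h3 := (hcont.tendsto (z.1, (0 : ℝ))).comp h2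
      exact (Complex.continuous_ofReal.tendsto _).comp h3
  have hlim0 : ∫ z in up, (f (z.1, 0) : ℂ) * ((pt c z) ^ k)⁻¹ = 0 := by
    refine tendsto_nhds_unique hlim ?_
    have h1 : (fun n : ℕ => ∫ z in up,
        (f (z.1, (1 / ((n : ℝ) + 1)) * z.2) : ℂ) * ((pt c z) ^ k)⁻¹) = fun _ => 0 := by
      funext n
      refine hzero _ (by positivity) ?_
      rw [div_le_one (by positivity)]
      have : (0 : ℝ) ≤ n := Nat.cast_nonneg n
      linarith
    rw [h1]
    exact tendsto_const_nhds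
  have hi0 := hint 0 le_rfl zero_le_one
  simp only [zero_mul] at hi0
  rw [hup] at hi0 hlim0
  have h2 := setIntegral_prod _ hi0
  change ∫ z in univ ×ˢ Ioi (0 : ℝ), _ ∂(volume.prod volume) = 0 at hlim0
  rw [h2, Measure.restrict_univ] at hlim0
  have h3 : ∀ x : ℝ, ∫ y in Ioi (0 : ℝ), (f (x, 0) : ℂ) * ((pt c (x, y)) ^ k)⁻¹ =
      ((f (x, 0) : ℂ) * ((c - (x : ℂ)) ^ (k - 1))⁻¹) * (Complex.I * ((k : ℂ) - 1))⁻¹ := by
    intro x
    rw [integral_const_mul]
    have h4 := int_ray k hk3 (c - (x : ℂ)) (by simpa using hc)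
    have h5 : ∀ y : ℝ, pt c (x, y) = Complex.I * (y : ℂ) + (c - (x : ℂ)) := by
      intro y
      simp only [pt]
      ring
    simp only [h5]
    rw [h4, div_eq_mul_inv]
    ring
  simp only [h3] at hlim0
  rw [integral_mul_const] at hlim0
  refine (mul_eq_zero.1 hlim0).resolve_right ?_
  refine inv_ne_zero (mul_ne_zero Complex.I_ne_zero ?_)
  intro h
  have := congrArg Complex.re h
  simp at this
  have hk' : (3 : ℝ) ≤ k := by exact_mod_cast hk3
  linarith

end Pool.Agent.Run7.h824.RD2
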